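import Mathlib
import Pool.Agent.Helper61.Liouville.Defs
import Pool.Agent.Helper61.Liouville.Measure

/-!
A complete surface of finite area and of negative curvature, not bounded below, for which the
integral of the geometric potential with respect to the Liouville measure is `-∞`; hence the
Liouville measure is not an equilibrium state for the geometric potential.

The surface is the plane minus the lattice `2πℤ + 2πiℤ` with the metric `e^{2φ} |dz|²`,
`e^{-2φ} = F (3 - ½ log F)² q (log q)²`, where `F = a(x) + a(y) - a(x) a(y)`,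
`a(t) = (1 - cos t)/3` and `q = 100 + |z|²`. Its curvature is comparable to `-q (log q)²`.
-/

namespace Pool.Agent.Results.MP_162786_an.InfiniteIntegral

open Pool.Agent.Helper61 MeasureTheory

lemma isGeometricPotential_geometricPotential {N : ℝ → ℝ → ℝ} (hN : N ∈ norms) {v : ℂ × ℂ}
    (hv : v ∈ exSurf.unitTangent) :
    exSurf.IsGeometricPotential N v (exSurf.geometricPotential N v) := by
  obtain ⟨c, hc, -, -⟩ := pot_exists hN hv
  have h : ∃ c, exSurf.IsGeometricPotential N v c := ⟨c, hc⟩
  unfold ConfSurface.geometricPotential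
  rw [dif_pos h]
  exact h.choose_spec

lemma potential_le {N : ℝ → ℝ → ℝ} (hN : N ∈ norms) {v : ℂ × ℂ}
    (hv : v ∈ exSurf.unitTangent) : exSurf.geometricPotential N v ≤ -(rho v.1 / 2400) := by
  obtain ⟨c, hc, huniq, hle⟩ := pot_exists hN hv
  rw [huniq _ (isGeometricPotential_geometricPotential hN hv)]
  exact hle

lemma curvature_unbounded (C : ℝ) : ∃ z ∈ exSurf.U, exSurf.curvature z < C := by
  set z : ℂ := ⟨|C| + 2, Real.pi⟩ with hz
  have h1 : al z.im = 2 / 3 := by
    rw [hz]; simp only [al, Real.cos_pi]; norm_num
  have hF : 0 < FF z := by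
    unfold FF
    rw [h1]
    nlinarith [al_nonneg z.re]
  refine ⟨z, hF, ?_⟩
  rw [exSurf_curvature hF]
  have h2 := kap_lower hF
  have h3 : (|C| + 2) ^ 2 ≤ qq z := by
    have : z.re = |C| + 2 := rfl
    unfold qq
    rw [this]
    nlinarith [sq_nonneg z.im]
  have h4 := log_qq_ge z
  have h5 : 4 * (|C| + 2) ^ 2 ≤ rho2 z := by
    unfold rho2
    have h6 : 4 ≤ Real.log (qq z) ^ 2 := by nlinarith
    have h7 : qq z * 4 ≤ qq z * Real.log (qq z) ^ 2 :=
      mul_le_mul_of_nonneg_left h6 (qq_pos z).le
    linarith
  have h6 : rho2 z * (1 / 6) ≤ rho2 z * kap z := mul_le_mul_of_nonneg_left h2 (rho2_pos z).le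
  have h7 := neg_abs_le C
  have h8 := abs_nonneg C
  nlinarith

/-- There is a complete connected surface `S` of finite area and of negative curvature, not bounded
below, such that the geometric potential `φ^u` is a well defined, everywhere negative function on
the unit tangent bundle, and its integral with respect to the Liouville measure is `-∞`. This holds
both when `φ^u` is computed with the Sasaki metric and when it is computed with the Riemannian
metric of the horocycles. Moreover `-φ^u` is bounded below by a positive continuous function `g`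
with infinite integral. -/
theorem result : ∃ S : ConfSurface,
    S.IsComplete ∧ S.area Set.univ < ⊤ ∧ (∀ z ∈ S.U, S.curvature z < 0) ∧
    (∀ C : ℝ, ∃ z ∈ S.U, S.curvature z < C) ∧
    IsProbabilityMeasure S.liouville ∧ S.liouville S.unitTangentᶜ = 0 ∧
    ∀ N ∈ ({sasakiNorm, horosphericalNorm} : Set (ℝ → ℝ → ℝ)),
      (∀ v ∈ S.unitTangent, ∃! c, S.IsGeometricPotential N v c) ∧
      (∀ v ∈ S.unitTangent, S.IsGeometricPotential N v (S.geometricPotential N v)) ∧
      (∀ v ∈ S.unitTangent, S.geometricPotential N v < 0) ∧
      (∃ g : ℂ × ℂ → ℝ, Continuous g ∧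
        (∀ v ∈ S.unitTangent, 0 < g v ∧ g v ≤ -S.geometricPotential N v) ∧
        ∫⁻ v, ENNReal.ofReal (g v) ∂S.liouville = ⊤) ∧
      ∫⁻ v, ENNReal.ofReal (-S.geometricPotential N v) ∂S.liouville = ⊤ := by
  refine ⟨exSurf, exSurf_complete, area_lt_top, fun z hz => ?_, curvature_unbounded,
    liouville_prob, liouville_compl, fun N hN => ⟨fun v hv => ?_, fun v hv => ?_, fun v hv => ?_,
    ⟨fun v => rho v.1 / 2400, ?_, fun v hv => ?_, lintegral_minorant⟩, ?_⟩⟩
  · rw [exSurf_curvature hz, neg_lt_zero]
    have := kap_lower hz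
    exact mul_pos (rho2_pos z) (by linarith)
  · obtain ⟨c, hc, huniq, -⟩ := pot_exists hN hv
    exact ⟨c, hc, huniq⟩
  · exact isGeometricPotential_geometricPotential hN hv
  · have h1 := potential_le hN hv
    have h2 := rho_pos v.1
    linarith
  · have hq : Continuous qq := (contDiff_qq (n := 0)).continuous
    have hr : Continuous rho := hq.sqrt.mul (hq.log fun z => (qq_pos z).ne')
    exact (hr.comp continuous_fst).div_const _
  · have h1 := potential_le hN hv
    have h2 := rho_pos v.1
    exact ⟨by positivity, by linarith⟩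
  · rw [← top_le_iff, ← lintegral_minorant]
    apply lintegral_mono_ae
    have h1 : ∀ᵐ v ∂exSurf.liouville, v ∈ exSurf.unitTangent := liouville_compl
    filter_upwards [h1] with v hv
    apply ENNReal.ofReal_le_ofReal
    linarith [potential_le hN hv]

end Pool.Agent.Results.MP_162786_an.InfiniteIntegral
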